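import Mathlib

set_option autoImplicit false

namespace Pool.Agent.Results.MP_427d8c_co.Rectangle

open Set Metric MeasureTheory
open scoped RealInnerProductSpace

abbrev E (k : ℕ) := EuclideanSpace ℝ (Fin k)

section defs

variable {k : ℕ}

/-- the orbit polytope -/
def Q (Γ : Subgroup (E k ≃ₗᵢ[ℝ] E k)) (w : E k) : Set (E k) :=
  convexHull ℝ {x | ∃ g ∈ Γ, g w = x}

/-- vertices -/
def vert (P : Set (E k)) : Set (E k) := P.extremePoints ℝ

/-- `s`, `t` are the two ends of an edge -/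
def Edge (P : Set (E k)) (s t : E k) : Prop :=
  s ∈ vert P ∧ t ∈ vert P ∧ s ≠ t ∧ IsExposed ℝ P (segment ℝ s t)

/-- the face of the polar dual where the facets dual to `s` and `t` meet -/
def dualFace (P : Set (E k)) (s t : E k) : Set (E k) :=
  {y | (∀ x ∈ P, ⟪x, y⟫ ≤ 1) ∧ ⟪s, y⟫ = 1 ∧ ⟪t, y⟫ = 1}

open Classical in
/-- off-diagonal entries of the Izmestiev matrix (zero unless `s`, `t` span an edge) -/
noncomputable def M (P : Set (E k)) (s t : E k) : ℝ :=
  if Edge P s t then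
    -((μH[((k - 2 : ℕ) : ℝ)] (dualFace P s t)).toReal /
      (‖s‖ * ‖t‖ * Real.sin (InnerProductGeometry.angle s t)))
  else 0

/-- the random walk matrix -/
noncomputable def T (P : Set (E k)) (s t : E k) : ℝ := -M P s t / ∑ᶠ u ∈ vert P, -M P s u

open Classical in
/-- second largest eigenvalue, with multiplicity -/
noncomputable def lam1 (P : Set (E k)) : ℝ :=
  if h : (vert P).Finite then
    ((Matrix.of fun s t : h.toFinset => T P s t).charpoly.roots.sort (· ≥ ·)).getD 1 0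
  else 0

/-- the face lattice -/
abbrev Faces (P : Set (E k)) := {F : Set (E k) // IsExposed ℝ P F}

/-- points of the sphere with full-dimensional orbit polytope of the type of `Q Γ w` -/
def cls (Γ : Subgroup (E k ≃ₗᵢ[ℝ] E k)) (r : ℝ) (w : E k) : Set (E k) :=
  {x | x ∈ sphere (0 : E k) r ∧ (interior (Q Γ x)).Nonempty ∧
    Nonempty (Faces (Q Γ w) ≃o Faces (Q Γ x))}

/-- strata: connected components of the classes -/
def Stratum (Γ : Subgroup (E k ≃ₗᵢ[ℝ] E k)) (r : ℝ) (S : Set (E k)) : Prop :=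
  ∃ w ∈ cls Γ r w, S = connectedComponentIn (cls Γ r w) w

/-- all edges have the same length -/
def Equilateral (P : Set (E k)) : Prop :=
  ∀ s t u v, Edge P s t → Edge P u v → dist s t = dist u v

end defs

noncomputable def sg (ε : Fin 2 → ℤˣ) : E 2 ≃ₗᵢ[ℝ] E 2 where
  toFun x := WithLp.toLp 2 fun i => ((ε i : ℤ) : ℝ) * x i
  invFun x := WithLp.toLp 2 fun i => ((ε i : ℤ) : ℝ) * x i
  map_add' x y := by ext i; simp [mul_add]
  map_smul' c x := by ext i; simp; ring
  left_inv x := by ext i; rcases Int.units_eq_one_or (ε i) with h | h <;> simp [h]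
  right_inv x := by ext i; rcases Int.units_eq_one_or (ε i) with h | h <;> simp [h]
  norm_map' x := by
    simp only [EuclideanSpace.norm_eq]
    congr 1
    refine Finset.sum_congr rfl fun i _ => ?_
    rcases Int.units_eq_one_or (ε i) with h | h <;> simp [h]

theorem sg_apply (ε : Fin 2 → ℤˣ) (x : E 2) (i : Fin 2) : sg ε x i = ((ε i : ℤ) : ℝ) * x i := rfl

noncomputable def sgH : (Fin 2 → ℤˣ) →* (E 2 ≃ₗᵢ[ℝ] E 2) where
  toFun := sg
  map_one' := by ext x i; simp [sg_apply]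
  map_mul' a b := by ext x i; simp [sg_apply, mul_assoc]

noncomputable def Γ : Subgroup (E 2 ≃ₗᵢ[ℝ] E 2) := sgH.range

def box (a b : ℝ) : Set (E 2) := {x | |x 0| ≤ a ∧ |x 1| ≤ b}

def crn (a b : ℝ) : Set (E 2) := {x | |x 0| = a ∧ |x 1| = b}

theorem orbit (w : E 2) : {x | ∃ g ∈ Γ, g w = x} = crn |w 0| |w 1| := by
  ext x
  constructor
  · rintro ⟨_, ⟨ε, rfl⟩, rfl⟩
    have : ∀ i, |sg ε w i| = |w i| := fun i => by
      rcases Int.units_eq_one_or (ε i) with h | h <;> simp [sg_apply, h]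
    exact ⟨this 0, this 1⟩
  · rintro ⟨h0, h1⟩
    have : ∀ i, ∃ e : ℤˣ, ((e : ℤ) : ℝ) * w i = x i := by
      have k : ∀ a b : ℝ, |a| = |b| → ∃ e : ℤˣ, ((e : ℤ) : ℝ) * b = a := by
        intro a b h
        rcases abs_eq_abs.1 h with h | h
        · exact ⟨1, by simp [h]⟩
        · exact ⟨-1, by simp [h]⟩
      exact Fin.forall_fin_two.2 ⟨k _ _ h0, k _ _ h1⟩
    choose ε hε using this
    exact ⟨sg ε, ⟨ε, rfl⟩, by ext i; exact hε i⟩

theorem box_convex (a b : ℝ) : Convex ℝ (box a b) := by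
  rintro x ⟨h0, h1⟩ y ⟨k0, k1⟩ s t hs ht hst
  simp only [box, mem_ofPred_eq, PiLp.add_apply, PiLp.smul_apply, smul_eq_mul, abs_le] at *
  refine ⟨⟨?_, ?_⟩, ?_, ?_⟩ <;> nlinarith [h0.1, h0.2, h1.1, h1.2, k0.1, k0.2, k1.1, k1.2]

theorem seg_h {a : ℝ} (b : ℝ) (x : E 2) (h0 : |x 0| ≤ |a|) (h1 : x 1 = b) :
    x ∈ segment ℝ !₂[a, b] !₂[-a, b] := by
  have : x 0 ∈ segment ℝ a (-a) := by
    rw [segment_eq_uIcc, mem_uIcc]
    rw [abs_le] at h0
    rcases abs_cases a with h | h
    · right; constructor <;> linarith [h0.1, h0.2]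
    · left; constructor <;> linarith [h0.1, h0.2]
  obtain ⟨s, t, hs, ht, hst, e⟩ := this
  refine ⟨s, t, hs, ht, hst, ?_⟩
  ext i
  fin_cases i
  · simpa using e
  · simp [h1, ← add_mul, hst]

theorem seg_v {b : ℝ} (a : ℝ) (x : E 2) (h0 : x 0 = a) (h1 : |x 1| ≤ |b|) :
    x ∈ segment ℝ !₂[a, b] !₂[a, -b] := by
  have : x 1 ∈ segment ℝ b (-b) := by
    rw [segment_eq_uIcc, mem_uIcc]
    rw [abs_le] at h1
    rcases abs_cases b with h | h
    · right; constructor <;> linarith [h1.1, h1.2]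
    · left; constructor <;> linarith [h1.1, h1.2]
  obtain ⟨s, t, hs, ht, hst, e⟩ := this
  refine ⟨s, t, hs, ht, hst, ?_⟩
  ext i
  fin_cases i
  · simp [h0, ← add_mul, hst]
  · simpa using e

theorem Q_eq (w : E 2) : Q Γ w = box |w 0| |w 1| := by
  rw [Q, orbit]
  refine (convexHull_min (show crn |w 0| |w 1| ⊆ box |w 0| |w 1| from
    fun x hx => ⟨hx.1.le, hx.2.le⟩) (box_convex _ _)).antisymm fun x hx => ?_
  have c := convex_convexHull ℝ (crn |w 0| |w 1|)
  have k : ∀ a, |a| = |w 0| → !₂[a, x 1] ∈ convexHull ℝ (crn |w 0| |w 1|) := fun a ha =>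
    c.segment_subset (subset_convexHull ℝ _ (by simp [crn, ha]))
      (subset_convexHull ℝ _ (by simp [crn, ha])) (seg_v (b := w 1) a _ (by simp) hx.2)
  exact c.segment_subset (k _ rfl) (k _ (abs_neg _)) (seg_h (a := w 0) _ x hx.1 rfl)

theorem vert_box (a b : ℝ) (ha : 0 ≤ a) (hb : 0 ≤ b) : vert (box a b) = crn a b := by
  refine Subset.antisymm ?_ fun x hx => ?_
  · have := Q_eq !₂[a, b]
    rw [Q, orbit] at this
    simp only [Matrix.cons_val_zero, Matrix.cons_val_one, abs_of_nonneg ha, abs_of_nonneg hb] at this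
    rw [← this]
    exact extremePoints_convexHull_subset
  · refine mem_extremePoints_iff_left.2 ⟨⟨hx.1.le, hx.2.le⟩, ?_⟩
    rintro y ⟨y0, y1⟩ z ⟨z0, z1⟩ ⟨s, t, hs, ht, hst, rfl⟩
    have k : ∀ c u v : ℝ, |s * u + t * v| = c → |u| ≤ c → |v| ≤ c → u = s * u + t * v := by
      intro c u v h hu hv
      rw [abs_le] at hu hv
      obtain rfl : t = 1 - s := by linarith
      rcases abs_cases (s * u + (1 - s) * v) with e | e
      · have : u = c := by nlinarith [hu.2, hv.2, mul_nonneg ht.le (sub_nonneg.2 hv.2)]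
        linarith
      · have : u = -c := by nlinarith [hu.1, hv.1, mul_nonneg ht.le (sub_nonneg.2 hv.1)]
        linarith
    ext i
    fin_cases i
    · simpa using k _ _ _ (by simpa using hx.1) y0 z0
    · simpa using k _ _ _ (by simpa using hx.2) y1 z1

theorem inner2 (x y : E 2) : ⟪x, y⟫ = x 0 * y 0 + x 1 * y 1 := by
  simp [PiLp.inner_apply, mul_comm]

theorem edge_h {a b : ℝ} (ha : a ≠ 0) (hb : b ≠ 0) : Edge (box |a| |b|) !₂[a, b] !₂[-a, b] := by
  simp only [Edge, vert_box _ _ (abs_nonneg a) (abs_nonneg b)]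
  refine ⟨by simp [crn], by simp [crn], fun e => ha ?_, fun _ => ⟨innerSL ℝ !₂[0, b], ?_⟩⟩
  · have := congrArg (fun x : E 2 => x 0) e
    simp at this; linarith
  · ext x
    simp only [mem_ofPred_eq, innerSL_apply_apply, inner2, Matrix.cons_val_zero,
      Matrix.cons_val_one, zero_mul, zero_add]
    constructor
    · intro hx
      have h1 := (box_convex |a| |b|).segment_subset (by simp [box]) (by simp [box]) hx
      obtain ⟨s, t, -, -, hst, rfl⟩ := hx
      refine ⟨h1, fun y hy => ?_⟩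
      have : b * y 1 ≤ |b| * |b| := (le_abs_self _).trans
        (by rw [abs_mul]; exact mul_le_mul_of_nonneg_left hy.2 (abs_nonneg _))
      simpa [← add_mul, hst] using this
    · rintro ⟨h1, h2⟩
      refine seg_h b x h1.1 ?_
      have h3 := h2 !₂[a, b] (by simp [box])
      have h4 := sq_le_sq' (abs_le.1 h1.2).1 (abs_le.1 h1.2).2
      rw [sq_abs] at h4
      simp at h3
      nlinarith [sq_nonneg (x 1 - b)]

theorem edge_v {a b : ℝ} (ha : a ≠ 0) (hb : b ≠ 0) : Edge (box |a| |b|) !₂[a, b] !₂[a, -b] := by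
  simp only [Edge, vert_box _ _ (abs_nonneg a) (abs_nonneg b)]
  refine ⟨by simp [crn], by simp [crn], fun e => hb ?_, fun _ => ⟨innerSL ℝ !₂[a, 0], ?_⟩⟩
  · have := congrArg (fun x : E 2 => x 1) e
    simp at this; linarith
  · ext x
    simp only [mem_ofPred_eq, innerSL_apply_apply, inner2, Matrix.cons_val_zero,
      Matrix.cons_val_one, zero_mul, add_zero]
    constructor
    · intro hx
      have h1 := (box_convex |a| |b|).segment_subset (by simp [box]) (by simp [box]) hx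
      obtain ⟨s, t, -, -, hst, rfl⟩ := hx
      refine ⟨h1, fun y hy => ?_⟩
      have : a * y 0 ≤ |a| * |a| := (le_abs_self _).trans
        (by rw [abs_mul]; exact mul_le_mul_of_nonneg_left hy.1 (abs_nonneg _))
      simpa [← add_mul, hst] using this
    · rintro ⟨h1, h2⟩
      refine seg_v a x ?_ h1.2
      have h3 := h2 !₂[a, b] (by simp [box])
      have h4 := sq_le_sq' (abs_le.1 h1.1).1 (abs_le.1 h1.1).2
      rw [sq_abs] at h4
      simp at h3
      nlinarith [sq_nonneg (x 0 - a)]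

theorem edge_d {a b : ℝ} (ha : a ≠ 0) (hb : b ≠ 0) :
    ¬ Edge (box |a| |b|) !₂[a, b] !₂[-a, -b] := by
  rintro ⟨-, -, -, h⟩
  obtain ⟨l, hl⟩ := h ⟨_, left_mem_segment ℝ _ _⟩
  have h0 : (0 : E 2) ∈ segment ℝ !₂[a, b] !₂[-a, -b] :=
    ⟨1 / 2, 1 / 2, by norm_num, by norm_num, by norm_num, by ext i; fin_cases i <;> simp⟩
  rw [hl] at h0
  have h1 := h0.2 (-!₂[a, -b]) (by simp [box])
  have h2 : !₂[a, -b] ∈ segment ℝ !₂[a, b] !₂[-a, -b] := by
    rw [hl]
    refine ⟨by simp [box], fun y hy => ?_⟩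
    have := h0.2 y hy
    rw [map_neg] at h1
    linarith [map_zero l]
  obtain ⟨s, t, hs, ht, hst, e⟩ := h2
  have e0 := congrArg (fun x : E 2 => x 0) e
  have e1 := congrArg (fun x : E 2 => x 1) e
  simp at e0 e1
  have f0 : (s - t - 1) * a = 0 := by linarith
  have f1 : (s - t + 1) * b = 0 := by linarith
  rcases mul_eq_zero.1 f0 with g0 | g0
  · rcases mul_eq_zero.1 f1 with g1 | g1
    · linarith
    · exact hb g1
  · exact ha g0

theorem M_h {a b : ℝ} (ha : a ≠ 0) (hb : b ≠ 0) :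
    M (box |a| |b|) !₂[a, b] !₂[-a, b] = -(1 / (2 * |a| * |b|)) := by
  have : dualFace (box |a| |b|) !₂[a, b] !₂[-a, b] = {!₂[0, 1 / b]} := by
    ext y
    simp only [dualFace, mem_ofPred_eq, inner2, Matrix.cons_val_zero, Matrix.cons_val_one,
      mem_singleton_iff]
    constructor
    · rintro ⟨-, h1, h2⟩
      have h3 : y 0 = 0 := (mul_eq_zero.1 (by linarith : a * y 0 = 0)).resolve_left ha
      ext i
      fin_cases i
      · simpa using h3
      · simp only [Fin.mk_one, Matrix.cons_val_one, Matrix.cons_val_zero]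
        field_simp; linarith
    · rintro rfl
      refine ⟨fun x hx => ?_, by simp [hb], by simp [hb]⟩
      simp only [Matrix.cons_val_zero, Matrix.cons_val_one, mul_zero, zero_add, mul_one_div]
      exact (le_abs_self _).trans (by rw [abs_div]; exact div_le_one_of_le₀ hx.2 (abs_nonneg _))
  rw [M, if_pos (edge_h ha hb), this, mul_comm, InnerProductGeometry.sin_angle_mul_norm_mul_norm]
  simp only [inner2, Matrix.cons_val_zero, Matrix.cons_val_one]
  rw [show (a * a + b * b) * (-a * -a + b * b) - (a * -a + b * b) * (a * -a + b * b) =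
    (2 * a * b) ^ 2 by ring, Real.sqrt_sq_eq_abs]
  simp [abs_mul]

theorem M_v {a b : ℝ} (ha : a ≠ 0) (hb : b ≠ 0) :
    M (box |a| |b|) !₂[a, b] !₂[a, -b] = -(1 / (2 * |a| * |b|)) := by
  have : dualFace (box |a| |b|) !₂[a, b] !₂[a, -b] = {!₂[1 / a, 0]} := by
    ext y
    simp only [dualFace, mem_ofPred_eq, inner2, Matrix.cons_val_zero, Matrix.cons_val_one,
      mem_singleton_iff]
    constructor
    · rintro ⟨-, h1, h2⟩
      have h3 : y 1 = 0 := (mul_eq_zero.1 (by linarith : b * y 1 = 0)).resolve_left hb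
      ext i
      fin_cases i
      · simp only [Fin.zero_eta, Matrix.cons_val_zero]
        field_simp; linarith
      · simpa using h3
    · rintro rfl
      refine ⟨fun x hx => ?_, by simp [ha], by simp [ha]⟩
      simp only [Matrix.cons_val_zero, Matrix.cons_val_one, mul_zero, add_zero, mul_one_div]
      exact (le_abs_self _).trans (by rw [abs_div]; exact div_le_one_of_le₀ hx.1 (abs_nonneg _))
  rw [M, if_pos (edge_v ha hb), this, mul_comm, InnerProductGeometry.sin_angle_mul_norm_mul_norm]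
  simp only [inner2, Matrix.cons_val_zero, Matrix.cons_val_one]
  rw [show (a * a + b * b) * (a * a + -b * -b) - (a * a + b * -b) * (a * a + b * -b) =
    (2 * a * b) ^ 2 by ring, Real.sqrt_sq_eq_abs]
  simp [abs_mul]

noncomputable def vv (a b : ℝ) : Fin 4 → E 2 := ![!₂[a, b], !₂[-a, b], !₂[-a, -b], !₂[a, -b]]

noncomputable def A : Matrix (Fin 4) (Fin 4) ℝ :=
  !![0, 1, 0, 1; 1, 0, 1, 0; 0, 1, 0, 1; 1, 0, 1, 0]

theorem M_vv {a b : ℝ} (ha : a ≠ 0) (hb : b ≠ 0) (i j : Fin 4) :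
    -M (box |a| |b|) (vv a b i) (vv a b j) = A i j * (1 / (2 * |a| * |b|)) := by
  have ha' := neg_ne_zero.2 ha
  have hb' := neg_ne_zero.2 hb
  have h1 := M_h ha hb
  have h2 := M_h ha' hb
  have h3 := M_h ha hb'
  have h4 := M_h ha' hb'
  have h5 := M_v ha hb
  have h6 := M_v ha' hb
  have h7 := M_v ha hb'
  have h8 := M_v ha' hb'
  have d1 := edge_d ha hb
  have d2 := edge_d ha' hb
  have d3 := edge_d ha hb'
  have d4 := edge_d ha' hb'
  simp only [abs_neg, neg_neg] at h2 h3 h4 h6 h7 h8 d2 d3 d4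
  have z : ∀ s t, ¬ Edge (box |a| |b|) s t → M (box |a| |b|) s t = 0 := fun s t h => if_neg h
  have z0 : ∀ s, M (box |a| |b|) s s = 0 := fun s => z _ _ fun h => h.2.2.1 rfl
  fin_cases i <;> fin_cases j <;>
    simp [vv, A, h1, h2, h3, h4, h5, h6, h7, h8, z0, z _ _ d1, z _ _ d2, z _ _ d3, z _ _ d4]

theorem vv_inj {a b : ℝ} (ha : a ≠ 0) (hb : b ≠ 0) : Function.Injective (vv a b) := by
  intro i j e
  have e0 := congrArg (fun x : E 2 => x 0) e
  have e1 := congrArg (fun x : E 2 => x 1) e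
  have k : ∀ c : ℝ, c ≠ 0 → ¬ c = -c ∧ ¬ -c = c := fun c h =>
    ⟨fun e => h (by linarith), fun e => h (by linarith)⟩
  fin_cases i <;> fin_cases j <;> simp [vv, k a ha, k b hb] at e0 e1 ⊢

theorem vert_vv (a b : ℝ) : vert (box |a| |b|) = range (vv a b) := by
  rw [vert_box _ _ (abs_nonneg a) (abs_nonneg b)]
  ext x
  constructor
  · rintro ⟨h0, h1⟩
    rcases abs_eq_abs.1 h0 with h0 | h0 <;> rcases abs_eq_abs.1 h1 with h1 | h1
    · exact ⟨0, by ext i; fin_cases i <;> simp [vv, h0, h1]⟩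
    · exact ⟨3, by ext i; fin_cases i <;> simp [vv, h0, h1]⟩
    · exact ⟨1, by ext i; fin_cases i <;> simp [vv, h0, h1]⟩
    · exact ⟨2, by ext i; fin_cases i <;> simp [vv, h0, h1]⟩
  · rintro ⟨i, rfl⟩
    fin_cases i <;> simp [vv, crn]

open Polynomial in
theorem lam_box {a b : ℝ} (ha : a ≠ 0) (hb : b ≠ 0) : lam1 (box |a| |b|) = 0 := by
  classical
  have hT : ∀ i j, T (box |a| |b|) (vv a b i) (vv a b j) = A i j / 2 := by
    intro i j
    rw [T, vert_vv, finsum_mem_range (vv_inj ha hb), finsum_eq_sum_of_fintype]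
    simp only [M_vv ha hb, ← Finset.sum_mul]
    have : ∑ j, A i j = 2 := by fin_cases i <;> simp [A, Fin.sum_univ_four] <;> norm_num
    rw [this]
    field_simp
  have hf : (vert (box |a| |b|)).Finite := by rw [vert_vv]; exact finite_range _
  let e : Fin 4 ≃ hf.toFinset := Equiv.ofBijective
    (fun i => ⟨vv a b i, by rw [Finite.mem_toFinset, vert_vv]; exact ⟨i, rfl⟩⟩)
    ⟨fun i j h => vv_inj ha hb (congrArg Subtype.val h), fun ⟨x, hx⟩ => by
      rw [Finite.mem_toFinset, vert_vv] at hx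
      obtain ⟨i, rfl⟩ := hx
      exact ⟨i, rfl⟩⟩
  have h1 : (Matrix.of fun s t : hf.toFinset => T (box |a| |b|) s t) =
      Matrix.reindex e e (Matrix.of fun i j => A i j / 2) := by
    ext s t
    obtain ⟨i, rfl⟩ := e.surjective s
    obtain ⟨j, rfl⟩ := e.surjective t
    simp only [Matrix.of_apply, Matrix.reindex_apply, Matrix.submatrix_apply, Equiv.symm_apply_apply]
    exact hT i j
  have h2 : (Matrix.of fun i j => A i j / 2).charpoly =
      (({1, 0, 0, -1} : Multiset ℝ).map fun c => X - C c).prod := by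
    apply Polynomial.funext
    intro x
    rw [Matrix.eval_charpoly]
    simp [Matrix.det_succ_row_zero, Fin.sum_univ_succ, A, Matrix.scalar_apply, Fin.succAbove,
      Matrix.diagonal_apply]
    ring
  rw [lam1, dif_pos hf]
  have h3 : (({1, 0, 0, -1} : Multiset ℝ).sort (· ≥ ·)) = [1, 0, 0, -1] := by
    change ((([1, 0, 0, -1] : List ℝ) : Multiset ℝ).sort (· ≥ ·)) = _
    rw [Multiset.coe_sort]
    apply List.mergeSort_eq_self
    simp
  convert (by rw [h3]; rfl : ((({1, 0, 0, -1} : Multiset ℝ).sort (· ≥ ·))).getD 1 0 = 0)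
  rw [← roots_multiset_prod_X_sub_C ({1, 0, 0, -1} : Multiset ℝ), ← h2,
    ← Matrix.charpoly_reindex e, ← h1]

theorem full_iff (w : E 2) : (interior (Q Γ w)).Nonempty ↔ w 0 ≠ 0 ∧ w 1 ≠ 0 := by
  rw [Q_eq]
  constructor
  · rintro ⟨x, hx⟩
    obtain ⟨ε, hε, h⟩ := Metric.mem_nhds_iff.1 (mem_interior_iff_mem_nhds.1 hx)
    have hx' := interior_subset hx
    have k : ∀ i, x + EuclideanSpace.single i (ε / 2) ∈ box |w 0| |w 1| := fun i =>
      h (by simp [abs_of_pos hε]; linarith)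
    constructor
    · intro e
      have h1 := (k 0).1
      have h2 := hx'.1
      simp [e] at h1 h2
      linarith
    · intro e
      have h1 := (k 1).2
      have h2 := hx'.2
      simp [e] at h1 h2
      linarith
  · rintro ⟨h0, h1⟩
    refine ⟨0, mem_interior.2 ⟨{x | |x 0| < |w 0| ∧ |x 1| < |w 1|}, fun x hx => ⟨hx.1.le, hx.2.le⟩,
      ?_, by simp [h0, h1]⟩⟩
    exact (isOpen_lt (f := fun x : E 2 => |x 0|) (by fun_prop) continuous_const).inter
      (isOpen_lt (f := fun x : E 2 => |x 1|) (by fun_prop) continuous_const)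

theorem exp_image {P P' : Set (E 2)} (φ : E 2 ≃L[ℝ] E 2) (h : φ '' P = P') {F : Set (E 2)}
    (hF : IsExposed ℝ P F) : IsExposed ℝ P' (φ '' F) := by
  intro hne
  obtain ⟨l, rfl⟩ := hF hne.of_image
  refine ⟨l.comp φ.symm.toContinuousLinearMap, ?_⟩
  subst h
  ext x
  obtain ⟨x, rfl⟩ := φ.surjective x
  simp [φ.injective.mem_set_image]

theorem same_type {a b a' b' : ℝ} (ha : 0 < a) (hb : 0 < b) (ha' : 0 < a') (hb' : 0 < b') :
    Nonempty (Faces (box a b) ≃o Faces (box a' b')) := by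
  let φ : E 2 ≃L[ℝ] E 2 := LinearEquiv.toContinuousLinearEquiv
    { toFun := fun x => !₂[a' / a * x 0, b' / b * x 1]
      invFun := fun x => !₂[a / a' * x 0, b / b' * x 1]
      map_add' := fun x y => by ext i; fin_cases i <;> simp [mul_add]
      map_smul' := fun c x => by ext i; fin_cases i <;> simp <;> ring
      left_inv := fun x => by ext i; fin_cases i <;> simp <;> field_simp
      right_inv := fun x => by ext i; fin_cases i <;> simp <;> field_simp }
  have h : φ '' box a b = box a' b' := by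
    ext x
    obtain ⟨x, rfl⟩ := φ.surjective x
    rw [φ.injective.mem_set_image]
    change _ ↔ |a' / a * x 0| ≤ a' ∧ |b' / b * x 1| ≤ b'
    rw [abs_mul, abs_mul, abs_of_pos (by positivity), abs_of_pos (by positivity : 0 < b' / b),
      div_mul_eq_mul_div, div_mul_eq_mul_div, div_le_iff₀ ha, div_le_iff₀ hb,
      mul_le_mul_iff_right₀ ha', mul_le_mul_iff_right₀ hb']
    rfl
  have h' : φ.symm '' box a' b' = box a b := by rw [← h, φ.symm_image_image]
  exact ⟨{ toFun := fun F => ⟨φ '' F.1, exp_image φ h F.2⟩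
           invFun := fun F => ⟨φ.symm '' F.1, exp_image φ.symm h' F.2⟩
           left_inv := fun F => Subtype.ext (φ.symm_image_image _)
           right_inv := fun F => Subtype.ext (φ.image_symm_image _)
           map_rel_iff' := image_subset_image_iff φ.injective }⟩

theorem cls_eq {w : E 2} (h0 : w 0 ≠ 0) (h1 : w 1 ≠ 0) :
    cls Γ 5 w = {x | x 0 ≠ 0 ∧ x 1 ≠ 0} ∩ sphere 0 5 := by
  ext x
  simp only [cls, full_iff, mem_ofPred_eq, mem_inter_iff]
  refine ⟨fun h => ⟨h.2.1, h.1⟩, fun h => ⟨h.2, h.1, ?_⟩⟩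
  rw [Q_eq, Q_eq]
  exact same_type (abs_pos.2 h0) (abs_pos.2 h1) (abs_pos.2 h.1.1) (abs_pos.2 h.1.2)

theorem lam_S {S : Set (E 2)} (hS : Stratum Γ 5 S) : S.Nonempty ∧ ∀ x ∈ S, lam1 (Q Γ x) = 0 := by
  obtain ⟨w, hw, rfl⟩ := hS
  refine ⟨⟨w, mem_connectedComponentIn hw⟩, fun x hx => ?_⟩
  have := (full_iff x).1 (connectedComponentIn_subset _ _ hx).2.1
  rw [Q_eq, lam_box this.1 this.2]

theorem result : ∃ (k : ℕ) (r : ℝ) (G : Subgroup (E k ≃ₗᵢ[ℝ] E k)), 2 ≤ k ∧ 0 < r ∧ Finite G ∧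
    (∀ S, Stratum G r S → ∃ U, IsOpen U ∧ S = U ∩ sphere 0 r) ∧
    (∀ S, Stratum G r S → ContinuousOn (fun w => lam1 (Q G w)) S ∧
      ∃ w ∈ S, IsMinOn (fun w => lam1 (Q G w)) S w) ∧
    ∃ S, Stratum G r S ∧ ∃ w ∈ S, IsMinOn (fun w => lam1 (Q G w)) S w ∧
      ¬ Equilateral (Q G w) := by
  refine ⟨2, 5, Γ, le_rfl, by norm_num, ?_, ?_, ?_, ?_⟩
  · exact Finite.of_surjective sgH.rangeRestrict sgH.rangeRestrict_surjective
  · rintro S ⟨w, hw, rfl⟩
    have h := (full_iff w).1 hw.2.1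
    have ho : IsOpen {x : E 2 | x 0 ≠ 0 ∧ x 1 ≠ 0} :=
      (isOpen_ne_fun (by fun_prop) continuous_const).inter
        (isOpen_ne_fun (by fun_prop) continuous_const)
    refine ⟨connectedComponentIn {x : E 2 | x 0 ≠ 0 ∧ x 1 ≠ 0} w, ho.connectedComponentIn, ?_⟩
    rw [cls_eq h.1 h.2]
    refine Subset.antisymm (subset_inter (connectedComponentIn_mono _ inter_subset_left)
      ((connectedComponentIn_subset _ _).trans inter_subset_right)) ?_
    have fx : ∀ x ∈ sphere (0 : E 2) 5, (5 / ‖x‖) • x = x := fun x hx => by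
      rw [mem_sphere_zero_iff_norm.1 hx]; simp
    have nz : ∀ x ∈ connectedComponentIn {x : E 2 | x 0 ≠ 0 ∧ x 1 ≠ 0} w, ‖x‖ ≠ 0 := by
      intro x hx e
      have := (connectedComponentIn_subset _ _ hx).1
      rw [norm_eq_zero.1 e] at this
      exact this rfl
    have pc := (isPreconnected_connectedComponentIn (x := w)
      (F := {x : E 2 | x 0 ≠ 0 ∧ x 1 ≠ 0})).image (fun x => (5 / ‖x‖) • x)
      ((continuousOn_const.div continuous_norm.continuousOn nz).smul continuousOn_id)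
    rintro x ⟨hx, hx'⟩
    refine pc.subset_connectedComponentIn ⟨w, mem_connectedComponentIn h, fx w hw.1⟩ ?_
      ⟨x, hx, fx x hx'⟩
    rintro _ ⟨y, hy, rfl⟩
    have h1 := connectedComponentIn_subset _ _ hy
    have h2 := nz y hy
    refine ⟨⟨by simp [h1.1, h2], by simp [h1.2, h2]⟩, ?_⟩
    rw [mem_sphere_zero_iff_norm, norm_smul]
    simp [h2]
  · intro S hS
    obtain ⟨⟨w, hw⟩, h⟩ := lam_S hS
    exact ⟨continuousOn_const.congr h, w, hw, fun x hx => by simp [h x hx, h w hw]⟩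
  · have hw : !₂[(3 : ℝ), 4] ∈ cls Γ 5 !₂[3, 4] := by
      rw [cls_eq (by simp) (by simp)]
      refine ⟨by simp, ?_⟩
      rw [mem_sphere_zero_iff_norm, EuclideanSpace.norm_eq, Real.sqrt_eq_iff_mul_self_eq] <;>
        simp <;> norm_num
    have hS : Stratum Γ 5 _ := ⟨_, hw, rfl⟩
    have h := (lam_S hS).2
    have hm := mem_connectedComponentIn hw
    refine ⟨_, hS, _, hm, fun x hx => by simp [h x hx, h _ hm], fun he => ?_⟩
    rw [Q_eq] at he
    have := he _ _ _ _ (edge_h (a := 3) (b := 4) (by norm_num) (by norm_num))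
      (edge_v (a := 3) (b := 4) (by norm_num) (by norm_num))
    rw [EuclideanSpace.dist_eq, EuclideanSpace.dist_eq, Real.sqrt_inj (by positivity)
      (by positivity)] at this
    simp [Real.dist_eq] at this
    norm_num at this

end Pool.Agent.Results.MP_427d8c_co.Rectangle
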